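import Pool.Agent.U492.VB.Cyclic

/-!
MP_79ab39_ag, Q1: Vojta's inequality for the blow-ups, at arbitrary finite sets of points of bounded
cardinality, of the surfaces which are finite coverings, sufficiently ramified over generic
hypersurface sections, of arbitrary projective varieties.

Let `K` be an algebraically closed field of characteristic `0` (for example the complex numbers), and
let `k` be a subfield, with algebraic closure `k'` in `K`. Let `V` be a closed subset of the projective
`n`-space over `k'`, of dimension at most `m`, and let `F_a`, for `a` in a finite set `A`, be generic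
forms of degrees `d_a` (`Generic`: the ratios of their coefficients are algebraically independent over
`k`). Let `M` be a closed subset `{G = 0}` of the weighted projective space over `K` with the
coordinates `x_0, …, x_n` of weight `1` and `u_v` of weight `e_v`, `v ∈ W`, such that

* `(x, u) ↦ x` is a finite morphism on `M` (`FiniteOver`), with image in `V` and in the hypersurfaces
  `F_a = 0`, `a ∈ C` (`Over`); `C` is a subset of `A`, for example empty;
* for the `a` not in `C`, this morphism is ramified of order at least `q_a ≥ 1` over `F_a = 0`
  (`RamifiedOver`: locally on `M`, the function `F_a` is in the `q_a`-th power of an ideal whose set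
  of zeros contains `{F_a = 0}`).

Let `T` be the sum of the numbers `d_a + 1`, `a ∈ C`, and `d_a (1 - 1 / q_a)`, `a ∉ C`, and let
`T > 2 m`. Let `κ ≥ 0` be a number with `K_M · f ≤ κ deg f` for all nonconstant maps `f` from smooth
projective curves to `M` (`CanonicalBound`; `deg` is the degree for the hyperplane class of `M`); for
example, if `M` is a complete intersection, the number with `K_M = O(κ)`, if this is not negative. Let
`λ` be a linear projection which is a finite morphism from `M` to the plane (`FinitePlane`; there are
such projections for all surfaces `M`).

**Theorem.** Let `M` be a smooth surface, let `S` be a finite set of points of `M`, let `X` be the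
blow-up of `M` at `S`, and let `Y` be a finite set of points of the plane which contains the images of
the points of `S` under `λ` (`PlaneImage`). If `κ ≤ α (T - 2 m)` and

  `|Y| ≤ (α (T - 2 m) - κ) ^ 2`

then for each `ε > 0` there is a constant `B` with

  `K_X · C ≤ (α + ε) (2 g - 2) + B`

for all curves `C` on `X`, of geometric genus `g`, which are not contained in the exceptional divisor
(`CurveInequality`, with `w = 2`). For the exceptional curves `K_X · C = -1` and `g = 0`.

With `α = 2` this is the statement of Q1 for `X`: if `κ ≤ 2 (T - 2 m)` and
`|Y| ≤ (2 (T - 2 m) - κ) ^ 2` then, for each `ε > 0`, `K_X · C ≤ (4 + ε) (g - 1) + B(ε)` for all curves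
`C` on `X`. There is no condition on the position of the points.

Example (theorem `cyclic_covers` in `Pool/Agent/U492/VB/Cyclic.lean`). Let `M` be the cyclic covering
`u ^ q = F(x_0, x_1, x_2)` of the plane, where `F` is generic of degree `q c`, and let
`N = (q - 1) c ≥ 5`. Here `T = N`, `m = 2`, `κ = N - 3`, and `λ` is the identity. So Q1 holds for the
blow-ups of `M` at all sets of at most `(N - 5) ^ 2` points, and more generally at all sets of points
which lie over at most `(N - 5) ^ 2` points of the plane, so at up to `q (N - 5) ^ 2` points. For
`q = 2`, `M` is a double plane, with `K_M ^ 2 = 2 (c - 3) ^ 2`, and the number of the points can be as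
large as `2 (c - 5) ^ 2`. Miyaoka's theorem does not apply to these surfaces, since their `K ^ 2` is
smaller than their `c_2`.

The hand-in RamifiedBlowups of this problem treats the sets `S` of small cardinality, or in special
position, where one can take `ε = 0` and `B = 0`. The hand-in VeryGeneralCovers of this problem and the
hand-in RamifiedSurfaces of MP_308c18_ag treat coverings, but not their blow-ups. For the blow-ups of
some surfaces which are not of general type, the inequality in Q1 fails: see the hand-ins PlaneBlowup
and LargeGenus of this problem.

A map `f` from a smooth projective curve, with function field `L`, to `M` is given by the coordinates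
`z` with `z (inl c) = 1` for some `c`; if the `z` generate `L`, this is the normalisation of a curve on
`M`, and its lift to `X` is the normalisation of a curve on `X`; each curve on `X` which is not in the
exceptional divisor is obtained in this way. The degree `K_M · f` is `canX`
(`Pool/Agent/N126/RC/CanDef.lean`), computed from a basis `u` of the tangent space at `z` of the cone
over `M` (`TangentBasis`). The degree of the exceptional divisor on the lift of `f` is the sum over the
points `p ∈ S` and over the places `P` of the orders at `P` of the ideal of `p` (`excDeg`, `pointOrd`),
and `K_X · f = K_M · f + excDeg` (`canBl`, with `w = 2`). These definitions are in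
`Pool/Agent/U492/VB/Defs.lean` and `Pool/Agent/U492/VB/DefsP.lean`.

The bound for the degrees, `(T - 2 m) deg f ≤ 2 g - 2`, is due to helper126 (library of the starting
files: `Pool.Agent.N126.RC.curve_proj`). The new part: if `|Y| < σ ^ 2`, there are plane curves `ψ = 0`
of degree at most `σ r` with multiplicity at least `r ≥ 1` at the points of `Y`, and the exceptional
divisor has degree at most `σ deg f` on the lifts of the maps `f` whose images are not contained in
the inverse image of `ψ = 0`; and the degrees of the curves in this inverse image are bounded.
-/

set_option autoImplicit false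

namespace Pool.Agent.Results.MP_79ab39_ag.BlowupsAtManyPoints

open MvPolynomial Pool.Agent.N126.RC Pool.Agent.TH145.MG Pool.Agent.U492.VB
open Pool.Agent.W603.LV Pool.Agent.W603.PV

/-- **Vojta's inequality for blow-ups, at many points, of surfaces ramified over generic hypersurface
sections.** -/
theorem result {k K : Type} [Field k] [Field K] [IsAlgClosed K] [CharZero K] [Algebra k K]
    {n m : ℕ}
    -- a closed subset of projective space, of dimension at most `m`
    (V : Set (MvPolynomial (Fin (n + 1)) (algebraicClosure k K)))
    (hVh : ∀ f ∈ V, ∃ e, f.IsHomogeneous e) (hV : DimLE (algebraicClosure k K) V m)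
    -- generic forms
    {A : Type} [Fintype A] [DecidableEq A] (d : A → ℕ) (F : A → MvPolynomial (Fin (n + 1)) K)
    (hF : Generic k d F)
    -- the projective surface `M = {G = 0}`, finite over `V ∩ ⋂ {F a = 0}`, `a ∈ C`, and ramified
    (C : Finset A) (q : A → ℕ) (hq : ∀ a, a ∉ C → q a ≠ 0)
    {W ι : Type} [Fintype W] (e : W → ℕ)
    (G : ι → MvPolynomial (Fin (n + 1) ⊕ W) K)
    (hG : ∀ i, ∃ c, (G i).IsWeightedHomogeneous (wts e) c) (hfin : FiniteOver G)
    (hov : Over V F C G) (hram : ∀ a, a ∉ C → RamifiedOver G (F a) (q a))
    -- the numerical condition
    (T : ℚ) (hT : T = ∑ a ∈ C, ((d a : ℚ) + 1) + ∑ a ∈ Cᶜ, (d a : ℚ) * (1 - 1 / q a))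
    (hTm : 2 * m < T)
    -- the canonical degree
    (κ : ℚ) (hκ0 : 0 ≤ κ) (hκ : CanonicalBound e G 2 κ)
    -- the points, and their images in the plane
    (S : Finset (Fin (n + 1) ⊕ W → K)) (hS : PointSet e G S)
    (lam : Fin 3 → Fin (n + 1) → K) (hlam : FinitePlane lam G)
    (Y : Finset (Fin 3 → K)) (hY : PlaneImage lam S Y)
    -- the factor
    (α : ℚ) (hα : κ ≤ α * (T - 2 * m)) (hs : (Y.card : ℚ) ≤ (α * (T - 2 * m) - κ) ^ 2) :
    CurveInequality e G S 2 α := by
  subst hT
  exact curve_inequality V hVh hV F hF C hq hTm e G hG hfin hov hram κ hκ0 hκ hS lam hlam Y hY α
    hα hs

end Pool.Agent.Results.MP_79ab39_ag.BlowupsAtManyPoints
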