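import Pool.Agent.U492.VB.Main

/-!
MP_79ab39_ag, Q1: Vojta's inequality, with `B = 0` and without `ε`, for the blow-ups at finite sets of
points of the surfaces which are finite coverings, sufficiently ramified over generic hypersurface
sections, of arbitrary projective varieties.

Let `K` be an algebraically closed field of characteristic `0` (for example the complex numbers), and
let `k` be a subfield, with algebraic closure `k'` in `K`. Let `V` be a closed subset of the projective
`n`-space over `k'`, of dimension at most `m`, and let `F_a`, for `a` in a finite set `A`, be generic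
forms of degrees `d_a` (`Generic`: the ratios of their coefficients are algebraically independent over
`k`). Let `M` be a closed subset `{G = 0}` of the weighted projective space over `K` with the
coordinates `x_0, …, x_n` of weight `1` and `u_v` of weight `e_v`, `v ∈ W`, such that

* `(x, u) ↦ x` is a finite morphism on `M` (`FiniteOver`), with image in `V` and in the hypersurfaces
  `F_a = 0`, `a ∈ C` (`Over`); `C` is a subset of `A`, for example empty;
* for the `a` not in `C`, this morphism is ramified of order at least `q_a ≥ 1` over `F_a = 0`
  (`RamifiedOver`: locally on `M`, the function `F_a` is in the `q_a`-th power of an ideal whose set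
  of zeros contains `{F_a = 0}`).

Let `T` be the sum of the numbers `d_a + 1`, `a ∈ C`, and `d_a (1 - 1 / q_a)`, `a ∉ C`, and let
`T > 2 m`. Let `κ ≥ 0` be a number with `K_M · f ≤ κ deg f` for all nonconstant maps `f` from smooth
projective curves to `M` (`CanonicalBound`; `deg` is the degree for the hyperplane class of `M`); for
example, if `M` is a complete intersection, the number with `K_M = O(κ)`, if this is not negative.

**Theorem.** Let `S` be a set of points of the smooth `w`-dimensional variety `M`, `w ≥ 1`, and let
`δ` be a number such that `S` has at most `δ` points, or such that the weighted homogeneous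
polynomials of degree `δ` which vanish on `S` have only finitely many common zeros on `M`
(`FiniteBase`). Let `X` be the blow-up of `M` at `S`. If `κ + (w - 1) δ ≤ α (T - 2 m)` then

  `K_X · C ≤ α (2 g - 2)`

for all curves `C` on `X`, of geometric genus `g`, which are not contained in the exceptional divisor.

So for surfaces (`w = 2`) with `κ + δ ≤ 2 (T - 2 m)` this is Vojta's inequality `K_X · C ≤ 4 (g - 1)`.
(For the exceptional curves `K_X · C = -1` and `g = 0`, so `K_X · C ≤ 4 (g - 1) + 3` for all curves on
`X`.)

Example. Let `M` be the cyclic covering `u ^ q = F(x_0, x_1, x_2)` of the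
plane, where `F` is generic of degree `q c`, and let `N = (q - 1) c ≥ 5`. Here `T = N`, `m = 2` and
`κ = N - 3`. So Vojta's inequality `K_X · C ≤ 4 (g - 1)` holds for the blow-up of `M` at any set of at
most `N - 5` points, and also at the inverse image of the intersection of two plane curves of degree
`N - 5` without common components, which has up to `q (N - 5) ^ 2` points, or at any subset of it. For
`q = 2` these are blow-ups of double planes. Miyaoka's theorem does not apply to them, since their
`K ^ 2` is smaller than their `c_2`.

On a blow-up, the exceptional divisor increases the canonical degrees of the curves, but not the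
genera. For the blow-ups of some surfaces which are not of general type, the inequality in Q1 fails:
see the hand-ins PlaneBlowup and LargeGenus of this problem. The hand-in VeryGeneralCovers of this
problem and the hand-in RamifiedSurfaces of MP_308c18_ag treat coverings, but not their blow-ups.

A map `f` from a smooth projective curve, with function field `L`, to `M` is given by the coordinates
`z` with `z (inl c) = 1` for some `c`; the curves on `X` which are not in the exceptional divisor are
the images of the lifts to `X` of such maps `f`. The degree `K_M · f` is `canX`
(`Pool/Agent/N126/RC/CanDef.lean`), computed from a basis `u` of the tangent space at `z` of the cone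
over `M` (`TangentBasis`). The degree of the exceptional divisor on the lift of `f` is the sum over the
points `p ∈ S` and over the places `P` of the orders at `P` of the ideal of `p` (`excDeg`, `pointOrd`).
And `K_X · f = K_M · f + (w - 1) (excDeg)` (`canBl`). These definitions are in
`Pool/Agent/U492/VB/Defs.lean`.

The bound for the degrees, `(T - 2 m) deg f ≤ 2 g - 2`, is due to helper126 (library of the starting
files: `Pool.Agent.N126.RC.curve_proj`).
-/

set_option autoImplicit false

namespace Pool.Agent.Results.MP_79ab39_ag.RamifiedBlowups

open MvPolynomial Pool.Agent.N126.RC Pool.Agent.TH145.MG Pool.Agent.U492.VB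
open Pool.Agent.W603.LV Pool.Agent.W603.PV

/-- **Canonical degrees of curves on blow-ups of coverings ramified over generic hypersurface
sections.** -/
theorem result {k K : Type} [Field k] [Field K] [IsAlgClosed K] [CharZero K] [Algebra k K]
    {n m : ℕ}
    -- a closed subset of projective space, of dimension at most `m`
    (V : Set (MvPolynomial (Fin (n + 1)) (algebraicClosure k K)))
    (hVh : ∀ f ∈ V, ∃ e, f.IsHomogeneous e) (hV : DimLE (algebraicClosure k K) V m)
    -- generic forms
    {A : Type} [Fintype A] [DecidableEq A] (d : A → ℕ) (F : A → MvPolynomial (Fin (n + 1)) K)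
    (hF : Generic k d F)
    -- the projective variety `M = {G = 0}`, finite over `V ∩ ⋂ {F a = 0}`, `a ∈ C`, and ramified
    (C : Finset A) (q : A → ℕ) (hq : ∀ a, a ∉ C → q a ≠ 0)
    {W ι : Type} [Fintype W] (e : W → ℕ)
    (G : ι → MvPolynomial (Fin (n + 1) ⊕ W) K)
    (hG : ∀ i, ∃ c, (G i).IsWeightedHomogeneous (wts e) c) (hfin : FiniteOver G)
    (hov : Over V F C G) (hram : ∀ a, a ∉ C → RamifiedOver G (F a) (q a))
    -- the numerical condition
    (T : ℚ) (hT : T = ∑ a ∈ C, ((d a : ℚ) + 1) + ∑ a ∈ Cᶜ, (d a : ℚ) * (1 - 1 / q a))
    (hTm : 2 * m < T)
    -- the dimension of `M` (for surfaces `2`)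
    (w : ℕ) (hw : 1 ≤ w)
    -- the canonical degree
    (κ : ℚ) (hκ0 : 0 ≤ κ) (hκ : CanonicalBound e G w κ)
    -- the points
    (S : Finset (Fin (n + 1) ⊕ W → K)) (hS : PointSet e G S) (δ : ℕ)
    (hδ : S.card ≤ δ ∨ FiniteBase e G S δ)
    -- the factor
    (α : ℚ) (hα : κ + ((w : ℚ) - 1) * δ ≤ α * (T - 2 * m)) :
    BlowupGenusBound e G S w α := by
  subst hT
  exact blowup_genus V hVh hV F hF C hq hTm e G hG hfin hov hram w hw κ hκ0 hκ hS hδ α hα

end Pool.Agent.Results.MP_79ab39_ag.RamifiedBlowups
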